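import Mathlib

/-! Crew EF (MP_815fa1_an): zero count of radial Emden-Fowler solutions on hyperbolic space.
`m = n - 1 ≥ 1`, `gg m r = sinh^m r`, `hh m r = m coth r`, `ff p x = |x|^(p-1) x`. -/

open Set Filter Topology

namespace H5.EF

/-- the coefficient `(n-1) coth r`, `m = n-1` -/
noncomputable def hh (m : ℕ) (r : ℝ) : ℝ := m * (Real.cosh r / Real.sinh r)

/-- the density `sinh^m` -/
noncomputable def gg (m : ℕ) (r : ℝ) : ℝ := Real.sinh r ^ m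

/-- `g''(r)/g(r) = m (m cosh² r - 1)/sinh² r` for `r > 0` -/
noncomputable def kk (m : ℕ) (r : ℝ) : ℝ := m * (m * Real.cosh r ^ 2 - 1) / Real.sinh r ^ 2

/-- the nonlinearity `|x|^(p-1) x` -/
noncomputable def ff (p x : ℝ) : ℝ := |x| ^ (p - 1) * x

/-- `y' = z`, `z' = -h z - F(r, y)` on `(0, R)`, `y, z` continuous on `[0, R]`,
`y(0) = c`, `z(0) = 0`. -/
structure Sys (m : ℕ) (F : ℝ → ℝ → ℝ) (c R : ℝ) (y z : ℝ → ℝ) : Prop where
  y0 : y 0 = c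
  z0 : z 0 = 0
  cy : ContinuousOn y (Icc 0 R)
  cz : ContinuousOn z (Icc 0 R)
  dy : ∀ r ∈ Ioo 0 R, HasDerivAt y (z r) r
  dz : ∀ r ∈ Ioo 0 R, HasDerivAt z (-(hh m r * z r) - F r (y r)) r

/-- nonlinear system (Emden-Fowler) -/
def NL (m : ℕ) (p c R : ℝ) (u v : ℝ → ℝ) : Prop := Sys m (fun _ x => ff p x) c R u v

/-- the linearised system along `u` -/
def LN (m : ℕ) (p R : ℝ) (u φ ψ : ℝ → ℝ) : Prop :=
  Sys m (fun r x => p * |u r| ^ (p - 1) * x) 1 R φ ψ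

/-- properties of `s(r) = ∫_r^∞ dt / g(t)` -/
structure SFun (m : ℕ) (s : ℝ → ℝ) : Prop where
  ds : ∀ r, 0 < r → HasDerivAt s (-(gg m r)⁻¹) r
  pos : ∀ r, 0 < r → 0 < s r
  lim : Tendsto (fun r => gg m r * s r) (𝓝[>] 0) (𝓝 0)
  dec : ∀ r, 0 < r → gg m r * kk m r * s r < hh m r

/-- the Pohozaev function -/
noncomputable def PP (m : ℕ) (p : ℝ) (s u v : ℝ → ℝ) (r : ℝ) : ℝ :=
  gg m r * (gg m r * s r * (v r ^ 2 + 2 / (p + 1) * |u r| ^ (p + 1)) + u r * v r)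

/-- hypotheses on a family of functions for counting zeros -/
structure Fam (α β R : ℝ) (U V : ℝ → ℝ → ℝ) : Prop where
  cU : ContinuousOn (fun q : ℝ × ℝ => U q.1 q.2) (Icc α β ×ˢ Icc 0 R)
  cV : ContinuousOn (fun q : ℝ × ℝ => V q.1 q.2) (Icc α β ×ˢ Icc 0 R)
  d : ∀ γ ∈ Icc α β, ∀ r ∈ Ioc 0 R, HasDerivAt (U γ) (V γ r) r
  zero : ∀ γ ∈ Icc α β, U γ 0 ≠ 0
  simple : ∀ γ ∈ Icc α β, ∀ r ∈ Icc 0 R, U γ r = 0 → V γ r ≠ 0
  cross : ∀ γ ∈ Ico α β, U γ R = 0 → ∀ᶠ γ' in 𝓝[>] γ, 0 < U γ' R * V γ R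

/-- number of zeros in `(0, R]` -/
noncomputable def cnt (R : ℝ) (u : ℝ → ℝ) : ℕ∞ := {r : ℝ | 0 < r ∧ r ≤ R ∧ u r = 0}.encard

/-- `u` solves the radial Emden-Fowler initial value problem on `[0, ∞)`: `u ∈ C¹[0,∞)`, twice
differentiable on `(0, ∞)`, `u(0) = α`, `u'(0) = 0`,
`u'' + (n-1) coth(r) u' + |u|^(p-1) u = 0`. -/
def IsSolution (n : ℕ) (p α : ℝ) (u : ℝ → ℝ) : Prop :=
  ∃ v : ℝ → ℝ, u 0 = α ∧ v 0 = 0 ∧ ContinuousOn v (Ici 0) ∧
    (∀ r, 0 ≤ r → HasDerivWithinAt u (v r) (Ici 0) r) ∧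
    (∀ r, 0 < r → HasDerivAt v
      (-((n - 1 : ℝ) * (Real.cosh r / Real.sinh r) * v r) - |u r| ^ (p - 1) * u r) r)

/-- `N`: number of zeros of `u` in `(0, ∞)` -/
noncomputable def zeroCount (u : ℝ → ℝ) : ℕ∞ := {r : ℝ | 0 < r ∧ u r = 0}.encard

/-! ### basic facts (proved, usable by every part) -/

theorem gg_pos {m : ℕ} {r : ℝ} (hr : 0 < r) : 0 < gg m r := pow_pos (Real.sinh_pos_iff.2 hr) m

theorem gg_cont (m : ℕ) : Continuous (gg m) := by unfold gg; fun_prop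

theorem gg_mono {m : ℕ} {r t : ℝ} (h0 : 0 ≤ r) (h : r ≤ t) : gg m r ≤ gg m t :=
  pow_le_pow_left₀ (Real.sinh_nonneg_iff.2 h0) (Real.sinh_le_sinh.2 h) m

theorem hh_nonneg {m : ℕ} {r : ℝ} (hr : 0 < r) : 0 ≤ hh m r :=
  mul_nonneg (Nat.cast_nonneg m) (div_nonneg (Real.cosh_pos r).le (Real.sinh_pos_iff.2 hr).le)

theorem gg_deriv {m : ℕ} {r : ℝ} (hr : 0 < r) : HasDerivAt (gg m) (gg m r * hh m r) r := by
  have hS : Real.sinh r ≠ 0 := (Real.sinh_pos_iff.2 hr).ne'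
  have h := (Real.hasDerivAt_sinh r).pow m
  refine h.congr_deriv ?_
  unfold gg hh
  rcases Nat.eq_zero_or_pos m with h0 | h0
  · subst h0; simp
  · obtain ⟨k, rfl⟩ : ∃ k, m = k + 1 := ⟨m - 1, by omega⟩
    simp only [Nat.add_sub_cancel, pow_succ]
    field_simp

theorem gh_deriv {m : ℕ} {r : ℝ} (hr : 0 < r) :
    HasDerivAt (fun r => gg m r * hh m r) (gg m r * kk m r) r := by
  have hS : Real.sinh r ≠ 0 := (Real.sinh_pos_iff.2 hr).ne'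
  have h1 := gg_deriv (m := m) hr
  have h2 : HasDerivAt (hh m) (m * ((Real.sinh r * Real.sinh r - Real.cosh r * Real.cosh r) /
      Real.sinh r ^ 2)) r := by
    unfold hh
    exact ((Real.hasDerivAt_cosh r).div (Real.hasDerivAt_sinh r) hS).const_mul _
  refine (h1.mul h2).congr_deriv ?_
  have h3 : Real.sinh r * Real.sinh r - Real.cosh r * Real.cosh r = -1 := by
    nlinarith [Real.cosh_sq r]
  rw [h3]
  unfold kk hh
  field_simp
  ring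

/-- derivative of `K = g' s` -/
theorem K_deriv {m : ℕ} {s : ℝ → ℝ} (hs : SFun m s) {r : ℝ} (hr : 0 < r) :
    HasDerivAt (fun r => gg m r * hh m r * s r) (gg m r * kk m r * s r - hh m r) r := by
  have h := (gh_deriv (m := m) hr).mul (hs.ds r hr)
  refine h.congr_deriv ?_
  have := (gg_pos (m := m) hr).ne'
  field_simp
  ring

end H5.EF
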