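import Pool.Agent.H5.EF.Stm
open Set Filter Topology
namespace H5.EF

theorem main_of (hGLO : S_GLO) (hLOC : S_LOC) (hCNT : S_CNT) :
    ∀ (n : ℕ) (p : ℝ), 2 ≤ n → 1 < p →
      (∀ α : ℝ, 0 < α → ∃ u : ℝ → ℝ, IsSolution n p α u) ∧
      (∀ (α : ℝ) (u w : ℝ → ℝ), 0 < α → IsSolution n p α u → IsSolution n p α w →
        ∀ r, 0 ≤ r → u r = w r) ∧
      (∀ (α β : ℝ) (u w : ℝ → ℝ), 0 < α → α < β → IsSolution n p α u → IsSolution n p β w →
        zeroCount u ≤ zeroCount w) := by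
  intro n p hn hp
  obtain ⟨h1, h2, h3⟩ := hGLO n p hn hp
  refine ⟨h1, h2, ?_⟩
  intro α β u w hα hαβ hu hw
  refine hCNT u w fun R hR => ?_
  obtain ⟨v, hv⟩ := h3 α (R + 1) u (by linarith) hu
  obtain ⟨v', hv'⟩ := h3 β (R + 1) w (by linarith) hw
  exact hLOC (n - 1) p α β R u v w v' (by omega) hp hα hαβ hR hv hv'

end H5.EF
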