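import Pool.Agent.H5.EF.Stm

open Set Filter Topology

namespace H5.EF.Sgn
open H5.EF

theorem neg_of_deriv_neg {f f' : ℝ → ℝ} {b : ℝ} (hb : 0 < b)
    (hd : ∀ r ∈ Ioc 0 b, HasDerivAt f (f' r) r) (hneg : ∀ r ∈ Ioo 0 b, f' r < 0)
    (hlim : Tendsto f (𝓝[>] 0) (𝓝 0)) : f b < 0 := by
  have hanti : StrictAntiOn f (Ioc 0 b) := by
    apply strictAntiOn_of_deriv_neg (convex_Ioc 0 b)
    · intro r hr
      exact (hd r hr).continuousAt.continuousWithinAt
    · intro r hr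
      rw [interior_Ioc] at hr
      rw [(hd r ⟨hr.1, hr.2.le⟩).deriv]
      exact hneg r hr
  have h1 : f b < f (b / 2) := hanti ⟨by linarith, by linarith⟩ ⟨hb, le_rfl⟩ (by linarith)
  have h2 : f (b / 2) ≤ 0 := by
    refine ge_of_tendsto hlim ?_
    filter_upwards [Ioo_mem_nhdsGT (show (0:ℝ) < b / 2 by linarith)] with t ht
    exact (hanti ⟨ht.1, by linarith [ht.2]⟩ ⟨by linarith, by linarith⟩ ht.2).le
  linarith

theorem ff_mul_self (p x : ℝ) (hp : 1 < p) : ff p x * x = |x| ^ (p + 1) := by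
  unfold ff
  rcases eq_or_ne x 0 with h | h
  · subst h
    simp [Real.zero_rpow (by linarith : p + 1 ≠ 0)]
  · have hx : 0 < |x| := abs_pos.2 h
    have h1 : x * x = |x| ^ (2 : ℝ) := by
      rw [Real.rpow_two, sq_abs]; ring
    rw [mul_assoc, h1, ← Real.rpow_add hx]
    congr 1; ring

theorem right_lim {f : ℝ → ℝ} {R : ℝ} (hR : 0 < R) (hf : ContinuousOn f (Icc 0 R)) :
    Tendsto f (𝓝[>] 0) (𝓝 (f 0)) := by
  have h1 := (hf 0 ⟨le_rfl, hR.le⟩).tendsto
  refine h1.mono_left ?_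
  rw [← nhdsWithin_Ioo_eq_nhdsGT hR]
  exact nhdsWithin_mono _ Ioo_subset_Icc_self

theorem gh_lim (m : ℕ) : ∃ c : ℝ, Tendsto (fun r => gg m r * hh m r) (𝓝[>] 0) (𝓝 c) := by
  rcases Nat.eq_zero_or_pos m with h0 | h0
  · subst h0
    refine ⟨0, ?_⟩
    have : (fun r => gg 0 r * hh 0 r) = fun _ => (0:ℝ) := by
      funext r; simp [hh]
    rw [this]; exact tendsto_const_nhds
  · obtain ⟨k, rfl⟩ : ∃ k, m = k + 1 := ⟨m - 1, by omega⟩
    refine ⟨((k + 1 : ℕ) : ℝ) * Real.sinh 0 ^ k * Real.cosh 0, ?_⟩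
    have hc : Continuous (fun r : ℝ => ((k + 1 : ℕ) : ℝ) * Real.sinh r ^ k * Real.cosh r) := by
      fun_prop
    have h1 : Tendsto (fun r : ℝ => ((k + 1 : ℕ) : ℝ) * Real.sinh r ^ k * Real.cosh r) (𝓝[>] 0)
        (𝓝 (((k + 1 : ℕ) : ℝ) * Real.sinh 0 ^ k * Real.cosh 0)) :=
      (hc.tendsto 0).mono_left nhdsWithin_le_nhds
    refine h1.congr' ?_
    filter_upwards [self_mem_nhdsWithin] with r hr
    have hS : Real.sinh r ≠ 0 := (Real.sinh_pos_iff.2 hr).ne'
    unfold gg hh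
    rw [pow_succ]
    field_simp

theorem t_SGN (hWD : S_WD) (hPPP : S_PPP) (hNDZ : S_NDZ) : S_SGN := by
  intro m p γ R r0 s u v φ ψ hm hp hγ hs hu hφ hr0 hr0R hur0
  have hR : 0 < R := hr0.trans hr0R
  have hWDr := hWD m p γ R s u v φ ψ hm hp hs hu hφ
  -- limits at 0+
  have lu : Tendsto u (𝓝[>] 0) (𝓝 γ) := by
    have h := right_lim hR hu.cy
    rwa [hu.y0] at h
  have lv : Tendsto v (𝓝[>] 0) (𝓝 0) := by
    have h := right_lim hR hu.cz
    rwa [hu.z0] at h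
  have lφ : Tendsto φ (𝓝[>] 0) (𝓝 1) := by
    have h := right_lim hR hφ.cy
    rwa [hφ.y0] at h
  have lψ : Tendsto ψ (𝓝[>] 0) (𝓝 0) := by
    have h := right_lim hR hφ.cz
    rwa [hφ.z0] at h
  have lg : Tendsto (gg m) (𝓝[>] 0) (𝓝 0) := by
    have h1 := ((gg_cont m).tendsto 0).mono_left (nhdsWithin_le_nhds (s := Ioi (0:ℝ)))
    have h2 : gg m 0 = 0 := by unfold gg; simp; omega
    rwa [h2] at h1
  have lgs := hs.lim
  obtain ⟨c0, lgh⟩ := gh_lim m
  have lf : Tendsto (fun r => ff p (u r)) (𝓝[>] 0) (𝓝 (ff p γ)) := by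
    unfold ff
    exact ((lu.abs).rpow_const (Or.inl (abs_pos.2 hγ.ne').ne')).mul lu
  set W0 : ℝ → ℝ := fun r => gg m r * (φ r * v r - ψ r * u r) with hW0
  set X : ℝ → ℝ := fun r => -(φ r * gg m r * v r) - gg m r ^ 2 * s r * ff p (u r) * φ r
        - s r * gg m r ^ 2 * v r * ψ r with hX
  have lW0 : Tendsto W0 (𝓝[>] 0) (𝓝 0) := by
    have := lg.mul ((lφ.mul lv).sub (lψ.mul lu))
    simpa [hW0] using this
  have lX : Tendsto X (𝓝[>] 0) (𝓝 0) := by
    have h1 := (((lφ.mul lg).mul lv).neg.sub (((lg.mul lgs).mul lf).mul lφ)).sub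
      (((lgs.mul lg).mul lv).mul lψ)
    simp only [mul_zero, zero_mul, neg_zero, sub_zero] at h1
    refine h1.congr fun r => ?_
    simp only [hX]; ring
  have lKW : Tendsto (fun r => (gg m r * hh m r * s r - 1) * W0 r) (𝓝[>] 0) (𝓝 0) := by
    have h1 := ((lgh.mul lgs).mul ((lφ.mul lv).sub (lψ.mul lu))).sub lW0
    simp only [mul_zero, zero_mul, sub_zero] at h1
    refine h1.congr fun r => ?_
    simp only [hW0]; ring
  set M : ℝ → ℝ := fun r => (p - 1) * X r + 2 * ((gg m r * hh m r * s r - 1) * W0 r) with hM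
  have lM : Tendsto M (𝓝[>] 0) (𝓝 0) := by
    have h1 := (lX.const_mul (p - 1)).add (lKW.const_mul 2)
    simpa [hM] using h1
  have dM : ∀ r ∈ Ioo 0 R, HasDerivAt M (2 * ((gg m r * kk m r * s r - hh m r) * W0 r)) r := by
    intro r hr
    obtain ⟨d1, d2⟩ := hWDr r hr
    have d3 : HasDerivAt (fun r => gg m r * hh m r * s r - 1)
        (gg m r * kk m r * s r - hh m r) r := (K_deriv hs hr.1).sub_const 1
    have d4 := (d2.const_mul (p - 1)).add (((d3.mul d1)).const_mul 2)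
    refine d4.congr_deriv ?_
    simp only [hW0]
    ring
  by_contra hcon
  push Not at hcon
  have hW0r0 : W0 r0 ≤ 0 := by
    simp only [hW0, hur0, mul_zero, sub_zero]
    exact mul_nonpos_of_nonneg_of_nonpos (gg_pos hr0).le hcon
  -- positivity of W0 near 0
  have hev : ∀ᶠ r in 𝓝[>] (0:ℝ), 0 < u r ∧ 0 < φ r :=
    (lu.eventually (lt_mem_nhds hγ)).and (lφ.eventually (lt_mem_nhds one_pos))
  obtain ⟨δ, hδ, hδ'⟩ : ∃ δ, 0 < δ ∧ ∀ r ∈ Ioo 0 δ, 0 < u r ∧ 0 < φ r := by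
    obtain ⟨δ, hδ, h⟩ := (mem_nhdsGT_iff_exists_Ioo_subset).1 hev
    exact ⟨δ, hδ, fun r hr => h hr⟩
  set δ1 := min δ r0 with hδ1
  have hδ1pos : 0 < δ1 := lt_min hδ hr0
  have hpos0 : ∀ b, 0 < b → b < δ1 → 0 < W0 b := by
    intro b hb hbδ
    have h1 : (fun r => -W0 r) b < 0 := by
      refine neg_of_deriv_neg (f := fun r => -W0 r)
        (f' := fun r => -((p - 1) * gg m r * ff p (u r) * φ r)) hb ?_ ?_ ?_
      · intro r hr
        have : r < R := by
          have := min_le_right δ r0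
          linarith [hr.2]
        exact (hWDr r ⟨hr.1, this⟩).1.neg
      · intro r hr
        have hrδ : r < δ := by
          have := min_le_left δ r0
          linarith [hr.2]
        obtain ⟨h1, h2⟩ := hδ' r ⟨hr.1, hrδ⟩
        have h3 : 0 < ff p (u r) := by
          unfold ff
          exact mul_pos (Real.rpow_pos_of_pos (abs_pos.2 h1.ne') _) h1
        have h4 : 0 < (p - 1) * gg m r * ff p (u r) * φ r :=
          mul_pos (mul_pos (mul_pos (by linarith) (gg_pos hr.1)) h3) h2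
        simpa using h4
      · simpa using lW0.neg
    simpa using h1
  -- W0 is continuous on (0,R)
  have cW0 : ∀ r ∈ Ioo 0 R, ContinuousAt W0 r := fun r hr => (hWDr r hr).1.continuousAt
  -- first zero
  set T : Set ℝ := {r | r ∈ Icc (δ1 / 2) r0 ∧ W0 r ≤ 0} with hT
  have hδ1r0 : δ1 ≤ r0 := min_le_right _ _
  have hTne : T.Nonempty := ⟨r0, ⟨by linarith, le_rfl⟩, hW0r0⟩
  have hcT : ContinuousOn W0 (Icc (δ1 / 2) r0) := fun r hr =>
    (cW0 r ⟨by linarith [hr.1], by linarith [hr.2]⟩).continuousWithinAt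
  have hTcl : IsClosed T := by
    have := hcT.preimage_isClosed_of_isClosed isClosed_Icc (isClosed_Iic (a := (0:ℝ)))
    have e : T = Icc (δ1 / 2) r0 ∩ W0 ⁻¹' Iic 0 := by
      ext r; rfl
    rw [e]; exact this
  have hTbd : BddBelow T := ⟨δ1 / 2, fun r hr => hr.1.1⟩
  have hζT : sInf T ∈ T := hTcl.csInf_mem hTne hTbd
  set ζ := sInf T with hζ
  have hζpos : 0 < ζ := by have := hζT.1.1; linarith
  have hζR : ζ < R := by have := hζT.1.2; linarith
  have hζr0 : ζ ≤ r0 := hζT.1.2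
  have hbefore : ∀ r, 0 < r → r < ζ → 0 < W0 r := by
    intro r hr hrζ
    by_cases h : r < δ1
    · exact hpos0 r hr h
    · by_contra hc
      push Not at hc h
      have : r ∈ T := ⟨⟨by linarith, by linarith⟩, hc⟩
      exact absurd (csInf_le hTbd this) (not_le.2 hrζ)
  have hW0ζ : W0 ζ = 0 := by
    refine le_antisymm hζT.2 ?_
    have h1 : Tendsto W0 (𝓝[<] ζ) (𝓝 (W0 ζ)) :=
      (cW0 ζ ⟨hζpos, hζR⟩).tendsto.mono_left nhdsWithin_le_nhds
    refine ge_of_tendsto h1 ?_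
    filter_upwards [Ioo_mem_nhdsLT hζpos] with r hr
    exact (hbefore r hr.1 hr.2).le
  have hMζ : M ζ < 0 := by
    refine neg_of_deriv_neg hζpos (fun r hr => dM r ⟨hr.1, by linarith [hr.2]⟩) ?_ lM
    intro r hr
    have h1 := hs.dec r hr.1
    have h2 := hbefore r hr.1 hr.2
    have : (gg m r * kk m r * s r - hh m r) * W0 r < 0 := mul_neg_of_neg_of_pos (by linarith) h2
    show 2 * ((gg m r * kk m r * s r - hh m r) * W0 r) < 0
    linarith
  have hXζ : X ζ < 0 := by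
    have : M ζ = (p - 1) * X ζ := by simp only [hM, hW0ζ]; ring
    rw [this] at hMζ
    have hp1 : 0 < p - 1 := by linarith
    exact (pos_iff_neg_of_mul_neg hMζ).1 hp1
  -- points before ζ with u φ < 0
  have hclose : ∀ a, a < ζ → ∃ y, a < y ∧ y < ζ ∧ u y * φ y < 0 := by
    intro a ha
    set a' := max a (ζ / 2) with ha'
    have h1 : a' < ζ := max_lt ha (by linarith)
    have h2 : 0 < a' := lt_of_lt_of_le (by linarith) (le_max_right a (ζ / 2))
    obtain ⟨y, hy, hy'⟩ := exists_hasDerivAt_eq_slope W0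
      (fun r => (p - 1) * gg m r * ff p (u r) * φ r) h1
      (fun r hr => (cW0 r ⟨by linarith [hr.1], by linarith [hr.2]⟩).continuousWithinAt)
      (fun r hr => (hWDr r ⟨by linarith [hr.1], by linarith [hr.2]⟩).1)
    have h3 : (W0 ζ - W0 a') / (ζ - a') < 0 := by
      rw [hW0ζ]
      exact div_neg_of_neg_of_pos (by linarith [hbefore a' h2 h1]) (by linarith)
    rw [← hy'] at h3
    refine ⟨y, lt_of_le_of_lt (le_max_left _ _) hy.1, hy.2, ?_⟩
    have h4 : (p - 1) * gg m y * ff p (u y) * φ y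
        = ((p - 1) * gg m y * |u y| ^ (p - 1)) * (u y * φ y) := by unfold ff; ring
    rw [h4] at h3
    have h5 : 0 ≤ (p - 1) * gg m y * |u y| ^ (p - 1) :=
      mul_nonneg (mul_nonneg (by linarith) (gg_pos (by linarith [hy.1])).le)
        (Real.rpow_nonneg (abs_nonneg _) _)
    by_contra hc
    push Not at hc
    exact absurd h3 (not_lt.2 (mul_nonneg h5 hc))
  have hgζ : 0 < gg m ζ := gg_pos hζpos
  have hsζ : 0 < s ζ := hs.pos ζ hζpos
  have hrel : φ ζ * v ζ = ψ ζ * u ζ := by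
    have : gg m ζ * (φ ζ * v ζ - ψ ζ * u ζ) = 0 := hW0ζ
    have := (mul_eq_zero.1 this).resolve_left hgζ.ne'
    linarith
  have du := hu.dy ζ ⟨hζpos, hζR⟩
  have dφ := hφ.dy ζ ⟨hζpos, hζR⟩
  rcases eq_or_ne (u ζ) 0 with h0 | h0
  · -- both vanish
    have hvζ : v ζ ≠ 0 := hNDZ m p γ R u v hm hp hγ hu ζ ⟨hζpos, hζR⟩ h0
    have hφζ : φ ζ = 0 := by
      rw [h0, mul_zero] at hrel
      exact (mul_eq_zero.1 hrel).resolve_right hvζ
    have hvψ : 0 < v ζ * ψ ζ := by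
      have h1 : X ζ = -(s ζ * gg m ζ ^ 2 * (v ζ * ψ ζ)) := by
        simp only [hX, hφζ, h0]
        ring
      rw [h1] at hXζ
      have h2 : 0 < s ζ * gg m ζ ^ 2 * (v ζ * ψ ζ) := by linarith
      exact (pos_iff_pos_of_mul_pos h2).1 (by positivity)
    have s1 := (hasDerivAt_iff_tendsto_slope.1 du).mul (hasDerivAt_iff_tendsto_slope.1 dφ)
    have s2 : ∀ᶠ y in 𝓝[≠] ζ, 0 < slope u ζ y * slope φ ζ y :=
      s1.eventually (lt_mem_nhds hvψ)
    have s3 : ∀ᶠ y in 𝓝[<] ζ, 0 < slope u ζ y * slope φ ζ y :=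
      s2.filter_mono (nhdsWithin_mono _ (fun y hy => ne_of_lt hy))
    obtain ⟨a, ha, ha'⟩ := (mem_nhdsLT_iff_exists_Ioo_subset).1 s3
    obtain ⟨y, hy1, hy2, hy3⟩ := hclose a ha
    have h4 : 0 < slope u ζ y * slope φ ζ y := ha' ⟨hy1, hy2⟩
    simp only [slope_def_field, h0, hφζ, sub_zero] at h4
    have h5 : u y / (y - ζ) * (φ y / (y - ζ)) = (u y * φ y) / (y - ζ) ^ 2 := by
      field_simp
    rw [h5] at h4
    have h6 : (u y * φ y) / (y - ζ) ^ 2 < 0 :=
      div_neg_of_neg_of_pos hy3 (by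
        have : y - ζ ≠ 0 := by linarith
        positivity)
    linarith
  · have hP := hPPP m p γ R r0 s u v hm hp hγ hs hu hr0 hr0R hur0 ζ hζpos hζr0
    unfold PP at hP
    set κ := φ ζ / u ζ with hκ
    have e1 : φ ζ = κ * u ζ := by rw [hκ]; field_simp
    have e2 : ψ ζ = κ * v ζ := by
      have : ψ ζ * u ζ = (κ * v ζ) * u ζ := by
        rw [← hrel, e1]; ring
      exact mul_right_cancel₀ h0 this
    have hpow : 0 ≤ |u ζ| ^ (p + 1) := Real.rpow_nonneg (abs_nonneg _) _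
    have e3 : X ζ = -(κ * (gg m ζ * (gg m ζ * s ζ * (v ζ ^ 2 + |u ζ| ^ (p + 1)) + u ζ * v ζ))) := by
      have h7 := ff_mul_self p (u ζ) hp
      simp only [hX, e2]
      rw [e1, ← h7]
      ring
    have hB : 0 < gg m ζ * (gg m ζ * s ζ * (v ζ ^ 2 + |u ζ| ^ (p + 1)) + u ζ * v ζ) := by
      refine lt_of_lt_of_le hP ?_
      refine mul_le_mul_of_nonneg_left ?_ hgζ.le
      have h8 : 2 / (p + 1) * |u ζ| ^ (p + 1) ≤ |u ζ| ^ (p + 1) := by
        have : 2 / (p + 1) ≤ 1 := by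
          rw [div_le_one (by linarith)]; linarith
        nlinarith
      have h9 : gg m ζ * s ζ * (v ζ ^ 2 + 2 / (p + 1) * |u ζ| ^ (p + 1))
          ≤ gg m ζ * s ζ * (v ζ ^ 2 + |u ζ| ^ (p + 1)) :=
        mul_le_mul_of_nonneg_left (by linarith) (by positivity)
      linarith
    have hκpos : 0 < κ := by
      rw [e3] at hXζ
      have : 0 < κ * (gg m ζ * (gg m ζ * s ζ * (v ζ ^ 2 + |u ζ| ^ (p + 1)) + u ζ * v ζ)) := by
        linarith
      exact (pos_iff_pos_of_mul_pos this).2 hB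
    have hprod : 0 < u ζ * φ ζ := by
      rw [e1]
      have : 0 < u ζ ^ 2 := by positivity
      nlinarith
    have c1 : Tendsto (fun y => u y * φ y) (𝓝[<] ζ) (𝓝 (u ζ * φ ζ)) :=
      ((du.continuousAt.mul dφ.continuousAt).tendsto).mono_left nhdsWithin_le_nhds
    have s3 : ∀ᶠ y in 𝓝[<] ζ, 0 < u y * φ y := c1.eventually (lt_mem_nhds hprod)
    obtain ⟨a, ha, ha'⟩ := (mem_nhdsLT_iff_exists_Ioo_subset).1 s3
    obtain ⟨y, hy1, hy2, hy3⟩ := hclose a ha
    have h4 : 0 < u y * φ y := ha' ⟨hy1, hy2⟩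
    linarith

end H5.EF.Sgn
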