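import Pool.Agent.H5.EF.Defs

/-! Statements of the parts of crew EF; docstring = paper proof.
Write `theorem t_X (deps as hypotheses) : S_X` in `Pool/Agent/<Seat>/EF/X.lean`
(own namespace, `open H5.EF`), import only `Pool.Agent.H5.EF.Stm`. -/

open Set Filter Topology

namespace H5.EF

/-- GS1. Take `s r = ∫ t in Ioi r, (gg m t)⁻¹` (integrable on `Ioi r`, `r > 0`: `sinh t ≥ t`, and
`sinh t ≥ e^t/4` for `t ≥ 1`), or `s r = L - ∫ t in 1..r, (gg m t)⁻¹`. -/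
def S_GS1 : Prop := ∀ m : ℕ, 1 ≤ m → ∃ s : ℝ → ℝ,
  (∀ r, 0 < r → HasDerivAt s (-(gg m r)⁻¹) r) ∧ (∀ r, 0 < r → 0 < s r) ∧ Tendsto s atTop (𝓝 0)

/-- GS2. `g s → 0` at `0+`. For `0 < r < δ`: `s r - s δ ≤ (δ - r)/g(r)` (mean value inequality,
`|s'| = 1/g ≤ 1/g(r)` on `[r, δ]`), so `0 < g(r) s(r) ≤ g(r) s(δ) + δ`; `g(r) → g(0) = 0`. -/
def S_GS2 : Prop := ∀ (m : ℕ) (s : ℝ → ℝ), 1 ≤ m →
  (∀ r, 0 < r → HasDerivAt s (-(gg m r)⁻¹) r) → (∀ r, 0 < r → 0 < s r) →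
  Tendsto (fun r => gg m r * s r) (𝓝[>] 0) (𝓝 0)

/-- GS3. Let `c = cosh r`, `S = sinh r`, `q r = c S / (g(r) (m c² - 1))` (note
`m c² - 1 ≥ S² > 0`). Then `q' + 1/g = -2 (c² - 1) / (g (m c² - 1)²) < 0` (use `c² = 1 + S²`),
so `q - s` is strictly decreasing on `(0, ∞)`; `q → 0` and `s → 0` at infinity
(`q ≤ c/S²` for `S ≥ 1`), hence `s < q`, which is the claim: `g · kk · q = hh`. -/
def S_GS3 : Prop := ∀ (m : ℕ) (s : ℝ → ℝ), 1 ≤ m →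
  (∀ r, 0 < r → HasDerivAt s (-(gg m r)⁻¹) r) → Tendsto s atTop (𝓝 0) →
  ∀ r, 0 < r → gg m r * kk m r * s r < hh m r

/-- FD. Calculus of `|x|^(p-1) x`, all `x` (also `x = 0`), `p > 1`. -/
def S_FD : Prop := ∀ p : ℝ, 1 < p →
  (∀ x : ℝ, HasDerivAt (ff p) (p * |x| ^ (p - 1)) x) ∧
  (∀ x : ℝ, HasDerivAt (fun x => |x| ^ (p + 1)) ((p + 1) * ff p x) x) ∧
  (∀ M x y : ℝ, |x| ≤ M → |y| ≤ M → |ff p x - ff p y| ≤ p * M ^ (p - 1) * |x - y|)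

/-- EX. Existence for the singular initial value problem with Lipschitz `F`.
Fixed point of `T y (r) = c - ∫_0^r Z_y(t) dt`, `Z_y(t) = (1/g(t)) ∫_0^t g(τ) F(τ, y τ) dτ`
(`Z_y(0) = 0`; `Z_y` is continuous on `[0,R]`, `|Z_y(t)| ≤ t sup|F(·,y)|` because `g` is
nondecreasing), on `C([0,R])`; `|T^k y - T^k x| (r) ≤ (L r²)^k/k! · ‖y - x‖`-type bounds make an
iterate contracting (`ContractingWith.isFixedPt_fixedPoint_iterate`); or use the weighted norm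
`sup e^{-λ r}|y(r)|`; or Picard iteration by hand. Extend `F` and `y` to the whole line by
`projIcc`. Then `y' = -Z_y =: z` and `(g z)' = -g F` gives the equation of `z`. -/
def S_EX : Prop := ∀ (m : ℕ) (F : ℝ → ℝ → ℝ) (L c R : ℝ), 1 ≤ m → 0 < R → 0 ≤ L →
  ContinuousOn (fun q : ℝ × ℝ => F q.1 q.2) (Icc 0 R ×ˢ univ) →
  (∀ r ∈ Icc 0 R, ∀ x y : ℝ, |F r x - F r y| ≤ L * |x - y|) → ∃ y z : ℝ → ℝ, Sys m F c R y z

/-- GRO. Gronwall. Let `J(t) = ∫_0^t (L|D| + ε)` (or `J(t) = t·(L sup_{[0,t]}|D| + ε)`).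
`|g E| ≤ g J` on `[0,R]`, since `(g E)' = -g H`, `|g H| ≤ g J' ≤ (g J)'` and both vanish at `0`
(`image_norm_le_of_norm_deriv_right_le_deriv_boundary`, or the mean value inequality).
So `|D'| = |E| ≤ J`, `|D(r)| ≤ d + R J(r) ≤ d + R² ε + R L ∫_0^r |D|`, and Gronwall
(`W(r) = d + R² ε + R L ∫_0^r |D|` has `W' ≤ R L W`) gives `|D(r)| ≤ (d + ε R²) e^{L R²}`,
then `|E(r)| ≤ J(r) ≤ R (L sup|D| + ε)`. -/
def S_GRO : Prop := ∀ (m : ℕ) (R L ε d : ℝ) (D E H : ℝ → ℝ), 1 ≤ m → 0 < R → 0 ≤ L → 0 ≤ ε →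
  ContinuousOn D (Icc 0 R) → ContinuousOn E (Icc 0 R) → E 0 = 0 → |D 0| ≤ d →
  (∀ r ∈ Ioo 0 R, HasDerivAt D (E r) r) →
  (∀ r ∈ Ioo 0 R, HasDerivAt E (-(hh m r * E r) - H r) r) →
  (∀ r ∈ Ioo 0 R, |H r| ≤ L * |D r| + ε) →
  ∀ r ∈ Icc 0 R, |D r| ≤ (d + ε * R ^ 2) * Real.exp (L * R ^ 2) ∧
    |E r| ≤ R * (L * ((d + ε * R ^ 2) * Real.exp (L * R ^ 2)) + ε)

/-- BD. A priori bound: `e = v²/2 + |u|^(p+1)/(p+1)` is continuous on `[0,R]`, `e' = -h v² ≤ 0` on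
`(0,R)` (FD), so `|u|^(p+1) ≤ (p+1) e(0) = γ^(p+1)`. -/
def S_BD : Prop := ∀ (m : ℕ) (p γ R : ℝ) (u v : ℝ → ℝ), 1 ≤ m → 1 < p → 0 ≤ γ → NL m p γ R u v →
  ∀ r ∈ Icc 0 R, |u r| ≤ γ

/-- NLE. Existence for the nonlinear problem. Let `fM x = ff p (max (-γ) (min γ x))`, globally
Lipschitz and continuous (FD: constant `p γ^(p-1)`); EX gives `u, v` on `[0, R]` for
`F r x = fM x`. Let `G x = ∫_0^x fM` (`= |x|^(p+1)/(p+1)` for `|x| ≤ γ` and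
`γ^(p+1)/(p+1) + γ^p (|x| - γ)` for `|x| ≥ γ`), `G' = fM`. `e = v²/2 + G(u)` is nonincreasing,
so `G(u(r)) ≤ G(γ)`, hence `|u(r)| ≤ γ` and `fM (u r) = ff p (u r)`. -/
def S_NLE : Prop := ∀ (m : ℕ) (p γ R : ℝ), 1 ≤ m → 1 < p → 0 < γ → 0 < R →
  ∃ u v : ℝ → ℝ, NL m p γ R u v

/-- LNE. Existence for the linearised problem: EX with `F r x = p |u r|^(p-1) x`,
`L = p sup_{[0,R]} |u|^(p-1)`. -/
def S_LNE : Prop := ∀ (m : ℕ) (p γ R : ℝ) (u v : ℝ → ℝ), 1 ≤ m → 1 < p → 0 < R →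
  NL m p γ R u v → ∃ φ ψ : ℝ → ℝ, LN m p R u φ ψ

/-- LIPG. Lipschitz dependence on the initial value: GRO with `D = u - u'`, `E = v - v'`,
`H = ff p u - ff p u'`, `L = p M^(p-1)` (BD, FD), `ε = 0`. -/
def S_LIPG : Prop := ∀ (m : ℕ) (p M R : ℝ), 1 ≤ m → 1 < p → 0 < M → 0 < R → ∃ C : ℝ, 0 < C ∧
  ∀ (γ γ' : ℝ) (u v u' v' : ℝ → ℝ), 0 ≤ γ → γ ≤ M → 0 ≤ γ' → γ' ≤ M → NL m p γ R u v →
    NL m p γ' R u' v' → ∀ r ∈ Icc 0 R, |u r - u' r| ≤ C * |γ - γ'| ∧ |v r - v' r| ≤ C * |γ - γ'|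

/-- DIF. Differentiability in the initial value. `D = u' - u - (γ'-γ) φ`,
`E = v' - v - (γ'-γ) ψ` solve the system of GRO with
`H = ff p u' - ff p u - (γ'-γ) p|u|^(p-1) φ = p|u|^(p-1) D + [ff p u' - ff p u - p|u|^(p-1)(u'-u)]`,
the bracket is `≤ η |u' - u| ≤ η C (γ'-γ)` where `η` is small with `γ'-γ` by uniform continuity of
`x ↦ p|x|^(p-1)` on `[-γ-1, γ+1]` (mean value theorem, FD), LIPG. GRO with `d = 0`. -/
def S_DIF : Prop := ∀ (m : ℕ) (p γ R : ℝ) (u v φ ψ : ℝ → ℝ), 1 ≤ m → 1 < p → 0 < γ → 0 < R →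
  NL m p γ R u v → LN m p R u φ ψ → ∀ ε > 0, ∃ δ > 0, ∀ (γ' : ℝ) (u' v' : ℝ → ℝ),
    γ < γ' → γ' < γ + δ → NL m p γ' R u' v' →
    ∀ r ∈ Icc 0 R, |u' r - u r - (γ' - γ) * φ r| ≤ ε * (γ' - γ)

/-- NDZ. No double zeros. `e = v²/2 + |u|^(p+1)/(p+1)`; `(g² e)' = 2 g² h (e - v²/2) ≥ 0` on
`(0,R)` (FD, gg_deriv), and `g² e > 0` for small `r > 0` since `u(0) = γ > 0`; so `g² e > 0` on
`(0,R)`. -/
def S_NDZ : Prop := ∀ (m : ℕ) (p γ R : ℝ) (u v : ℝ → ℝ), 1 ≤ m → 1 < p → 0 < γ → NL m p γ R u v →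
  ∀ r ∈ Ioo 0 R, u r = 0 → v r ≠ 0

/-- PD. Derivative of the Pohozaev function: direct computation with gg_deriv, `s' = -1/g`, FD:
`(g·g s)' = 2 g h g s - g`, `(v² + 2/(p+1)|u|^(p+1))' = -2 h v²`,
`(g u v)' = g v² - g |u|^(p+1)`. -/
def S_PD : Prop := ∀ (m : ℕ) (p γ R : ℝ) (s u v : ℝ → ℝ), 1 ≤ m → 1 < p → SFun m s →
  NL m p γ R u v → ∀ r ∈ Ioo 0 R, HasDerivAt (PP m p s u v)
    (gg m r * |u r| ^ (p + 1) * (4 * (gg m r * hh m r * s r - 1) - (p - 1)) / (p + 1)) r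

/-- PPP. If `u(r0) = 0` then the Pohozaev function is positive on `(0, r0]`.
`PP → 0` at `0+` (`g → 0`, `g s → 0`, the rest bounded); `PP(r0) = g² s v(r0)² > 0` (NDZ).
`q = 4(K-1) - (p-1)`, `K = g h s` strictly decreasing (K_deriv, SFun.dec), `PP' = g|u|^(p+1) q/(p+1)`.
Let `x ∈ (0, r0)`, suppose `PP x ≤ 0`. Mean value theorem on `[x, r0]`: some `z > x` has
`PP'(z) > 0`, so `q z > 0`, so `q > 0` on `(0, z]`, so `PP' ≥ 0` on `(0, z)` and `PP' > 0` near `0`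
(`u(0) = γ > 0`); with the limit `0` at `0+` this gives `PP x > 0`. -/
def S_PPP : Prop := ∀ (m : ℕ) (p γ R r0 : ℝ) (s u v : ℝ → ℝ), 1 ≤ m → 1 < p → 0 < γ → SFun m s →
  NL m p γ R u v → 0 < r0 → r0 < R → u r0 = 0 → ∀ x, 0 < x → x ≤ r0 → 0 < PP m p s u v x

/-- WD. Derivatives of two auxiliary functions (direct computation):
`W0 = g (φ v - ψ u)` and
`X = -φ g v - g² s f(u) φ - s g² v ψ` (this is `g (w' φ - w ψ)` for `w = g s v`),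
`K = g h s`. (No use of SFun.dec, only `s' = -1/g`.) -/
def S_WD : Prop := ∀ (m : ℕ) (p γ R : ℝ) (s u v φ ψ : ℝ → ℝ), 1 ≤ m → 1 < p → SFun m s →
  NL m p γ R u v → LN m p R u φ ψ → ∀ r ∈ Ioo 0 R,
    HasDerivAt (fun r => gg m r * (φ r * v r - ψ r * u r))
      ((p - 1) * gg m r * ff p (u r) * φ r) r ∧
    HasDerivAt (fun r => -(φ r * gg m r * v r) - gg m r ^ 2 * s r * ff p (u r) * φ r
        - s r * gg m r ^ 2 * v r * ψ r)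
      (-2 * (gg m r * hh m r * s r - 1) * gg m r * ff p (u r) * φ r) r

/-- SGN. The heart. `W0 = g(φ v - ψ u)`, `W0' = (p-1) g f(u) φ` (WD), `W0 → 0` at `0+`, `W0' > 0`
near `0` (`u(0) = γ > 0`, `φ(0) = 1`), so `W0 > 0` near `0`. Claim: `W0 > 0` on `(0, r0]`; at `r0` it
is `g φ v`. Suppose not, `ζ` = first point of `(0, r0]` with `W0(ζ) = 0`, `W0 > 0` on `(0, ζ)`.
`M = (p-1) X + 2 (K - 1) W0` (`X`, `K` as in WD) has `M' = 2 K' W0 < 0` on `(0, ζ)` (K_deriv,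
SFun.dec) and `M → 0` at `0+` (SFun.lim), so `M(ζ) < 0`, i.e. `X(ζ) < 0`.
Also (mean value theorem, `W0` positive before `ζ`, zero at `ζ`) there are `y < ζ` arbitrarily close
to `ζ` with `W0'(y) < 0`, i.e. `u(y) φ(y) < 0`.
Case `u(ζ) ≠ 0`: `φ = κ u`, `ψ = κ v` at `ζ` (from `φ v = ψ u`, `κ = φ/u`), and
`X(ζ) = -κ (g² s (v² + |u|^(p+1)) + g u v)`, where the bracket is `≥ PP(ζ) > 0` (PPP; `2/(p+1) ≤ 1`);
so `κ > 0`, `u φ > 0` near `ζ`, contradiction.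
Case `u(ζ) = 0`: `v(ζ) ≠ 0` (NDZ), so `φ(ζ) = 0`, `X(ζ) = -s g² v ψ < 0`, `v(ζ) ψ(ζ) > 0`; but then
`u(y) φ(y) > 0` for `y < ζ` near `ζ` (both vanish at `ζ` with derivatives of the same sign),
contradiction. -/
def S_SGN : Prop := ∀ (m : ℕ) (p γ R r0 : ℝ) (s u v φ ψ : ℝ → ℝ), 1 ≤ m → 1 < p → 0 < γ →
  SFun m s → NL m p γ R u v → LN m p R u φ ψ → 0 < r0 → r0 < R → u r0 = 0 → 0 < φ r0 * v r0

/-- TPO. Local persistence of zeros. If `x < R`: `V γ x ≠ 0`, so `U γ` takes values of opposite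
signs at two points `a < x < b` of `(x-ε, x+ε) ∩ (0,R)`; so does `U γ'` for `γ'` near `γ`
(continuity); intermediate value theorem. If `x = R`: `U γ a` has the sign of `-V γ R` for some
`a ∈ (R-ε, R)`, so `U γ' a` for `γ'` near `γ`, while `U γ' R * V γ R > 0` (cross). -/
def S_TPO : Prop := ∀ (α β R : ℝ) (U V : ℝ → ℝ → ℝ), 0 < R → Fam α β R U V →
  ∀ γ ∈ Ico α β, ∀ x, 0 < x → x ≤ R → U γ x = 0 → ∀ ε > 0,
    ∀ᶠ γ' in 𝓝[>] γ, ∃ y, 0 < y ∧ y ≤ R ∧ |y - x| < ε ∧ U γ' y = 0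

/-- TPC. Closedness. A limit of parameters `γ_j → γ` in `[α, β]` with `k` distinct zeros
`x^j : Fin k → (0,R]` each: a subsequence of `x^j` converges in `[0,R]^k`; the limits are zeros of
`U γ`, positive (`zero`), pairwise distinct: if `x_i = x_l`, Rolle gives `y_j` between `x^j_i` and
`x^j_l` with `V γ_j y_j = 0`, so `V γ x_i = 0 = U γ x_i`, against `simple`. -/
def S_TPC : Prop := ∀ (α β R : ℝ) (U V : ℝ → ℝ → ℝ), 0 < R → Fam α β R U V → ∀ k : ℕ,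
  IsClosed {γ : ℝ | γ ∈ Icc α β ∧ (k : ℕ∞) ≤ cnt R (U γ)}

/-- TOP. For `k ≤ cnt (U α)` the closed set of TPC contains `α` and is open to the right (TPO:
take `k` zeros, `ε` = half their minimal distance), so it is `[α, β]`
(`IsClosed.Icc_subset_of_forall_mem_nhdsWithin`). -/
def S_TOP : Prop := ∀ (α β R : ℝ) (U V : ℝ → ℝ → ℝ), 0 < R → α ≤ β → Fam α β R U V →
  cnt R (U α) ≤ cnt R (U β)

/-- FAM. The solutions `U γ, V γ` on `[0, R+1]` (NLE, choice) form a family: joint continuity from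
LIPG (Lipschitz in `γ` uniformly in `r`) and continuity in `r`; `simple` is NDZ at `r > 0` and
`U γ 0 = γ > 0`; `cross`: if `U γ R = 0` then `φ(R) V(R) > 0` (SGN on `[0,R+1]`, LNE) and
`U γ' R = (γ'-γ)(φ(R) + o(1))` (DIF). -/
def S_FAM : Prop := ∀ (m : ℕ) (p α β R : ℝ), 1 ≤ m → 1 < p → 0 < α → α < β → 0 < R →
  ∃ U V : ℝ → ℝ → ℝ, Fam α β R U V ∧ ∀ γ ∈ Icc α β, NL m p γ (R + 1) (U γ) (V γ)

/-- LOC. Comparison of the numbers of zeros on `(0, R]`: FAM, TOP and uniqueness (LIPG). -/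
def S_LOC : Prop := ∀ (m : ℕ) (p α β R : ℝ) (u v u' v' : ℝ → ℝ), 1 ≤ m → 1 < p → 0 < α → α < β →
  0 < R → NL m p α (R + 1) u v → NL m p β (R + 1) u' v' → cnt R u ≤ cnt R u'

/-- GLO. Global solutions: existence (glue the solutions of NLE on `[0, k]`, which agree by LIPG;
e.g. `u r = Y (⌊r⌋₊ + 2) r` with `Y k` the solution on `[0, k]`), uniqueness, and restriction to
`[0, R]` with `m = n - 1`. -/
def S_GLO : Prop := ∀ (n : ℕ) (p : ℝ), 2 ≤ n → 1 < p →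
  (∀ α, 0 < α → ∃ u : ℝ → ℝ, IsSolution n p α u) ∧
  (∀ (α : ℝ) (u w : ℝ → ℝ), 0 < α → IsSolution n p α u → IsSolution n p α w →
    ∀ r, 0 ≤ r → u r = w r) ∧
  (∀ (α R : ℝ) (u : ℝ → ℝ), 0 < R → IsSolution n p α u → ∃ v : ℝ → ℝ, NL (n - 1) p α R u v)

/-- CNT. Passing from `(0, R]` to `(0, ∞)`: for each finite `k ≤ zeroCount u` choose `R` larger than
`k` zeros. -/
def S_CNT : Prop := ∀ u w : ℝ → ℝ, (∀ R, 0 < R → cnt R u ≤ cnt R w) → zeroCount u ≤ zeroCount w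

end H5.EF
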